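import Pool.Agent.H369.PL.Stm

/-!
# Project CK (helper369): PL3 ORD, by helper187
-/

set_option autoImplicit false

namespace Pool.Agent.H187.PL

open Pool.Agent.H369.PL PowerSeries

variable {F A : Type} [Field F] [CommRing A]

theorem mem_ctr {e : A →+* PowerSeries F} {f : A} :
    f ∈ RingHom.ker ((PowerSeries.constantCoeff (R := F)).comp e) ↔ constantCoeff (e f) = 0 := by
  rw [RingHom.mem_ker, RingHom.comp_apply]

theorem dvd_of_mem (e : A →+* PowerSeries F) (k : ℕ) {f : A}
    (hf : f ∈ (RingHom.ker ((PowerSeries.constantCoeff (R := F)).comp e)) ^ k) :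
    (X : PowerSeries F) ^ k ∣ e f := by
  have h1 : RingHom.ker ((PowerSeries.constantCoeff (R := F)).comp e) ≤
      Ideal.comap e (Ideal.span {(X : PowerSeries F)}) := by
    intro g hg
    rw [Ideal.mem_comap, Ideal.mem_span_singleton, X_dvd_iff]
    exact mem_ctr.mp hg
  have h2 : (RingHom.ker ((PowerSeries.constantCoeff (R := F)).comp e)) ^ k ≤
      Ideal.comap e (Ideal.span {(X : PowerSeries F)} ^ k) :=
    (Ideal.pow_right_mono h1 k).trans (Ideal.le_comap_pow e k)
  have h3 := h2 hf
  rw [Ideal.mem_comap, Ideal.span_singleton_pow, Ideal.mem_span_singleton] at h3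
  exact h3

/-- the coefficient of the lowest possible term of a product -/
theorem coeff_mul_low {p q : PowerSeries F} (k : ℕ) (hp : (X : PowerSeries F) ^ k ∣ p) :
    coeff k (p * q) = coeff k p * constantCoeff q := by
  obtain ⟨u, rfl⟩ := hp
  have e1 : (X : PowerSeries F) ^ k * u * q = X ^ k * (u * q) := by ring
  have e2 : coeff k ((X : PowerSeries F) ^ k * (u * q)) = coeff 0 (u * q) := by
    have := coeff_X_pow_mul (u * q) k 0
    simpa using this
  have e3 : coeff k ((X : PowerSeries F) ^ k * u) = coeff 0 u := by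
    have := coeff_X_pow_mul u k 0
    simpa using this
  rw [e1, e2, e3]
  simp

theorem ord : S_ord := by
  intro F A _ _ _ _ e hU hne k f
  obtain ⟨π, hπ0, hπ1⟩ := hU.unif
  have hprime : (ctr e).IsPrime := RingHom.ker_isPrime _
  have hm : ctr e = RingHom.ker ((PowerSeries.constantCoeff (R := F)).comp e) := rfl
  have hdvd : ∀ (k : ℕ) (f : A), f ∈ (ctr e) ^ k → (X : PowerSeries F) ^ k ∣ e f :=
    fun k f hf => dvd_of_mem e k hf
  have hπm : π ∈ ctr e := by
    rw [hm]
    apply mem_ctr.mpr
    rw [← coeff_zero_eq_constantCoeff_apply]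
    exact hπ0
  have hXπ : (X : PowerSeries F) ∣ e π := by
    rw [X_dvd_iff, ← coeff_zero_eq_constantCoeff_apply]
    exact hπ0
  -- the coefficient of `π ^ k`
  have hπk : ∀ k : ℕ, coeff k (e (π ^ k)) ≠ 0 := by
    intro k
    obtain ⟨u, hu⟩ := hXπ
    have hu0 : constantCoeff u ≠ 0 := by
      intro h
      apply hπ1
      rw [hu]
      have := coeff_X_pow_mul u 1 0
      simp only [pow_one, zero_add] at this
      rw [this, coeff_zero_eq_constantCoeff_apply, h]
    rw [map_pow, hu, mul_pow]
    have := coeff_X_pow_mul (u ^ k) k 0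
    simp only [zero_add] at this
    rw [this, coeff_zero_eq_constantCoeff_apply, map_pow]
    exact pow_ne_zero _ hu0
  have hnot : ∀ k : ℕ, π ^ k ∉ (ctr e) ^ (k + 1) := by
    intro k hk
    have h1 := hdvd (k + 1) _ hk
    rw [X_pow_dvd_iff] at h1
    exact hπk k (h1 k (Nat.lt_succ_self k))
  constructor
  · intro h
    induction k with
    | zero => simp
    | succ k ih =>
      have hk : f ∈ (ctr e) ^ k := ih (fun l hl => h l (Nat.lt_succ_of_lt hl))
      obtain ⟨d, r, hr, hd⟩ := Ideal.exists_mul_add_mem_pow_succ hne (π ^ k) f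
        (Ideal.pow_mem_pow hπm k) (hnot k) hk
      have h1 : coeff k (e f) = coeff k (e (π ^ k)) * constantCoeff (e d) := by
        rw [← hd, map_add, map_mul, map_add,
          coeff_mul_low k (hdvd k _ (Ideal.pow_mem_pow hπm k))]
        have h2 := hdvd (k + 1) _ hr
        rw [X_pow_dvd_iff] at h2
        rw [h2 k (Nat.lt_succ_self k), add_zero]
      have h3 : constantCoeff (e d) = 0 := by
        rw [h k (Nat.lt_succ_self k)] at h1
        exact (mul_eq_zero.mp h1.symm).resolve_left (hπk k)
      have h4 : d ∈ ctr e := by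
        rw [hm]
        exact mem_ctr.mpr h3
      rw [← hd]
      refine Ideal.add_mem _ ?_ hr
      rw [pow_succ]
      exact Ideal.mul_mem_mul (Ideal.pow_mem_pow hπm k) h4
  · intro h l hl
    have h1 := hdvd k f h
    rw [X_pow_dvd_iff] at h1
    exact h1 l hl

end Pool.Agent.H187.PL
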